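import Pool.Agent.Helper79.GL4.GoalsB

set_option autoImplicit false

/-!
# GL4: gluing the alternating forms on the quotients (packet GLUE, MP_27a5f8_al)
-/

namespace GL4

open Module Submodule

namespace Glue26

variable {F : Type} [Field F] {V : Type} [AddCommGroup V] [Module F V]

/-- functionals with the same kernel are proportional -/
theorem same_ker (f g : V →ₗ[F] F) (h : LinearMap.ker f = LinearMap.ker g) :
    ∃ c : F, c ≠ 0 ∧ f = c • g := by
  by_cases hg : g = 0
  · have hf : f = 0 := by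
      rw [← LinearMap.ker_eq_top, h, hg, LinearMap.ker_zero]
    exact ⟨1, one_ne_zero, by rw [hf, hg, smul_zero]⟩
  · obtain ⟨v, hv⟩ : ∃ v, g v ≠ 0 := by
      by_contra hc
      push Not at hc
      exact hg (LinearMap.ext hc)
    have hfv : f v ≠ 0 := by
      intro h0
      have h1 : v ∈ LinearMap.ker f := h0
      rw [h] at h1
      exact hv h1
    refine ⟨f v / g v, div_ne_zero hfv hv, LinearMap.ext fun u => ?_⟩
    have h1 : u - (g u / g v) • v ∈ LinearMap.ker g := by
      rw [LinearMap.mem_ker, map_sub, map_smul, smul_eq_mul, div_mul_cancel₀ _ hv, sub_self]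
    rw [← h, LinearMap.mem_ker, map_sub, map_smul, smul_eq_mul, sub_eq_zero] at h1
    rw [h1, LinearMap.smul_apply, smul_eq_mul]
    ring

/-- two nonzero functionals -/
theorem cover2 (f g : V →ₗ[F] F) (hf : f ≠ 0) (hg : g ≠ 0) : ∃ u, f u ≠ 0 ∧ g u ≠ 0 := by
  obtain ⟨v, hv⟩ : ∃ v, f v ≠ 0 := by
    by_contra hc; push Not at hc; exact hf (LinearMap.ext hc)
  obtain ⟨w, hw⟩ : ∃ v, g v ≠ 0 := by
    by_contra hc; push Not at hc; exact hg (LinearMap.ext hc)
  by_cases h1 : g v = 0
  · by_cases h2 : f w = 0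
    · exact ⟨v + w, by rw [map_add, h2, add_zero]; exact hv, by rw [map_add, h1, zero_add]; exact hw⟩
    · exact ⟨w, h2, hw⟩
  · exact ⟨v, hv, h1⟩

theorem kill1 (f : V →ₗ[F] F) (u v : V) (hu : f u ≠ 0) (mu : F) (h1 : mu ≠ 1) :
    (f v ≠ 0 ∧ f (u + v) ≠ 0) ∨ (f v ≠ 0 ∧ f (u + mu • v) ≠ 0) ∨
      (f (u + v) ≠ 0 ∧ f (u + mu • v) ≠ 0) := by
  by_cases hv : f v = 0
  · right; right
    simp [map_add, map_smul, hv, hu]
  · by_cases h2 : f (u + v) = 0
    · right; left
      refine ⟨hv, ?_⟩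
      rw [map_add] at h2
      have h3 : f v = - f u := by linear_combination h2
      rw [map_add, map_smul, smul_eq_mul, h3]
      have h4 : f u + mu * -f u = (1 - mu) * f u := by ring
      rw [h4]
      exact mul_ne_zero (sub_ne_zero.2 (Ne.symm h1)) hu
    · left; exact ⟨hv, h2⟩

/-- three nonzero functionals, at least three scalars -/
theorem cover3 (f g e : V →ₗ[F] F) (hf : f ≠ 0) (hg : g ≠ 0) (he : e ≠ 0) (mu : F) (h0 : mu ≠ 0)
    (h1 : mu ≠ 1) : ∃ r, f r ≠ 0 ∧ g r ≠ 0 ∧ e r ≠ 0 := by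
  obtain ⟨u, hfu, hgu⟩ := cover2 f g hf hg
  by_cases heu : e u = 0
  · obtain ⟨v, hv⟩ : ∃ v, e v ≠ 0 := by
      by_contra hc; push Not at hc; exact he (LinearMap.ext hc)
    have e1 : e (u + v) ≠ 0 := by rw [map_add, heu, zero_add]; exact hv
    have e2 : e (u + mu • v) ≠ 0 := by
      rw [map_add, heu, zero_add, map_smul, smul_eq_mul]; exact mul_ne_zero h0 hv
    rcases kill1 f u v hfu mu h1 with ⟨a, b⟩ | ⟨a, b⟩ | ⟨a, b⟩ <;>
    rcases kill1 g u v hgu mu h1 with ⟨a', b'⟩ | ⟨a', b'⟩ | ⟨a', b'⟩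
    · exact ⟨v, a, a', hv⟩
    · exact ⟨v, a, a', hv⟩
    · exact ⟨u + v, b, a', e1⟩
    · exact ⟨v, a, a', hv⟩
    · exact ⟨v, a, a', hv⟩
    · exact ⟨u + mu • v, b, b', e2⟩
    · exact ⟨u + v, a, b', e1⟩
    · exact ⟨u + mu • v, b, b', e2⟩
    · exact ⟨u + v, a, a', e1⟩
  · exact ⟨u, hfu, hgu, heu⟩

/-- skew symmetry of alternating forms -/
theorem skew (w : V →ₗ[F] V →ₗ[F] F) (h : ∀ x, w x x = 0) (x y : V) : w x y = - w y x := by
  have h1 := h (x + y)
  simp only [map_add, LinearMap.add_apply, h x, h y, zero_add, add_zero] at h1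
  linear_combination h1

/-- the local forms -/
theorem step1 (hN : NPOL) [FiniteDimensional F V] (Z : Submodule F V → Submodule F V)
    (hZ : ∀ L, Ln L → L ≤ Z L ∧ Hy (Z L))
    (hE : ∀ L M E, Ln L → Ln M → Pl E → L ≤ E → M ≤ E → E ≤ Z L → E ≤ Z M)
    (p : V) (hp : p ≠ 0) :
    ∃ w : V →ₗ[F] V →ₗ[F] F, (∀ x, w x x = 0) ∧ w p = 0 ∧
      ∀ x, x ∉ F ∙ p → LinearMap.ker (w x) = Z ((F ∙ p) ⊔ (F ∙ x)) := by
  have hP : Pt (F ∙ p) := pt_span hp
  set P : Submodule F V := F ∙ p with hPd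
  have hle : ∀ x : Submodule F (V ⧸ P), Pt x → P ≤ Z (x.comap P.mkQ) := fun x hx =>
    (le_up x).trans (hZ _ (hx.up hP)).1
  obtain ⟨w, hw1, hw2⟩ := hN F (V ⧸ P) (fun x => (Z (x.comap P.mkQ)).map P.mkQ)
    (by
      intro x hx
      have h1 := hZ _ (hx.up hP)
      refine ⟨h1.2.down (hle x hx), ?_⟩
      have h2 := Submodule.map_mono (f := P.mkQ) h1.1
      rwa [down_up] at h2)
    (by
      intro x y hx hy hyx
      by_cases hxy : x = y
      · rw [← hxy]
        have h2 := Submodule.map_mono (f := P.mkQ) (hZ _ (hx.up hP)).1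
        rwa [down_up] at h2
      · have hx1 : x ≤ (Z (x.comap P.mkQ)).map P.mkQ := by
          have h2 := Submodule.map_mono (f := P.mkQ) (hZ _ (hx.up hP)).1
          rwa [down_up] at h2
        have hPl : Pl ((x ⊔ y).comap P.mkQ) := by
          have h3 := ln_sup hx hy hxy
          have h4 := finrank_up (P := P) (x ⊔ y)
          rw [Ln] at h3
          rw [Pt] at hP
          rw [Pl]; omega
        have h5 : (x ⊔ y).comap P.mkQ ≤ Z (x.comap P.mkQ) := by
          rw [← up_down (hle x hx), up_le_up]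
          exact sup_le hx1 hyx
        have h6 := hE (x.comap P.mkQ) (y.comap P.mkQ) ((x ⊔ y).comap P.mkQ) (hx.up hP) (hy.up hP)
          hPl (up_le_up.2 le_sup_left) (up_le_up.2 le_sup_right) h5
        rw [← up_down (hle y hy), up_le_up] at h6
        exact le_sup_left.trans h6)
  refine ⟨w.compl₁₂ P.mkQ P.mkQ, fun x => ?_, ?_, fun x hx => ?_⟩
  · rw [LinearMap.compl₁₂_apply]; exact hw1 _
  · have : P.mkQ p = 0 := by
      rw [Submodule.mkQ_apply, Submodule.Quotient.mk_eq_zero]
      exact mem_span_singleton_self p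
    refine LinearMap.ext fun y => ?_
    rw [LinearMap.compl₁₂_apply, this, map_zero]; rfl
  · have hx0 : P.mkQ x ≠ 0 := by
      rw [Submodule.mkQ_apply, Ne, Submodule.Quotient.mk_eq_zero]; exact hx
    have h1 := hw2 (P.mkQ x) hx0
    have h2 : LinearMap.ker (w.compl₁₂ P.mkQ P.mkQ x) =
        (LinearMap.ker (w (P.mkQ x))).comap P.mkQ := by
      ext y
      rw [mem_comap, LinearMap.mem_ker, LinearMap.mem_ker, LinearMap.compl₁₂_apply]
    have h3 : (F ∙ (P.mkQ x)).comap P.mkQ = P ⊔ (F ∙ x) := by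
      rw [← Submodule.comap_map_mkQ, Submodule.map_span, Set.image_singleton]
    rw [h2, h1, up_down (hle _ (pt_span hx0)), h3]

end Glue26

open Glue26

theorem glue26 (hN : NPOL) : GLUE := by
  intro F _ _ V _ _ _ Z h3 hZ hE
  classical
  have hker : ∀ p x : V, p ≠ 0 → x ∉ F ∙ p → Ln ((F ∙ p) ⊔ (F ∙ x)) := by
    intro p x hp hx
    have hx0 : x ≠ 0 := by rintro rfl; exact hx (zero_mem _)
    refine ln_sup (pt_span hp) (pt_span hx0) fun h => hx ?_
    rw [h]; exact mem_span_singleton_self x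
  obtain ⟨p0, hp0⟩ : ∃ p0 : V, p0 ≠ 0 := by
    have : Nontrivial V := Module.nontrivial_of_finrank_pos (R := F) (by omega)
    exact exists_ne 0
  obtain ⟨w0, w0a, w0b, w0c⟩ := step1 hN Z hZ hE p0 hp0
  -- a form whose kernels are the hyperplanes `Z` does not vanish
  have hne : ∀ (p x : V) (f : V →ₗ[F] F), p ≠ 0 → x ∉ F ∙ p →
      LinearMap.ker f = Z ((F ∙ p) ⊔ (F ∙ x)) → f ≠ 0 := by
    intro p x f hp hx hf h0
    have h1 := (hZ _ (hker p x hp hx)).2.ne_top
    rw [← hf, h0, LinearMap.ker_zero] at h1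
    exact h1 rfl
  have hsw : ∀ p x : V, p ≠ 0 → x ∉ F ∙ p → x ≠ 0 ∧ p ∉ F ∙ x := by
    intro p x hp hx
    refine ⟨fun h => hx (by rw [h]; exact zero_mem _), fun h => hx ?_⟩
    obtain ⟨c, hc⟩ := mem_span_singleton.1 h
    have hc0 : c ≠ 0 := by
      rintro rfl
      rw [zero_smul] at hc
      exact hp hc.symm
    rw [mem_span_singleton]
    exact ⟨c⁻¹, by rw [← hc, smul_smul, inv_mul_cancel₀ hc0, one_smul]⟩
  -- the normalised forms
  have hex : ∀ p : V, ∃ w : V →ₗ[F] V →ₗ[F] F, (∀ x, w x x = 0) ∧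
      (∀ c : F, p = c • p0 → w = c • w0) ∧ (p ∉ F ∙ p0 → w p0 = - w0 p) ∧ (p = 0 → w = 0) ∧
      w p = 0 ∧
      (p ≠ 0 → ∀ x, x ∉ F ∙ p → LinearMap.ker (w x) = Z ((F ∙ p) ⊔ (F ∙ x))) := by
    intro p
    by_cases hp : p ∈ F ∙ p0
    · obtain ⟨c, rfl⟩ := mem_span_singleton.1 hp
      refine ⟨c • w0, fun x => ?_, ?_, fun h => absurd hp h, ?_, ?_, ?_⟩
      · rw [LinearMap.smul_apply, LinearMap.smul_apply, w0a, smul_zero]
      · intro c' hc'
        have : c = c' := by
          have h1 : (c - c') • p0 = 0 := by rw [sub_smul, hc', sub_self]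
          rcases smul_eq_zero.1 h1 with h2 | h2
          · exact sub_eq_zero.1 h2
          · exact absurd h2 hp0
        rw [this]
      · intro h
        rcases smul_eq_zero.1 h with h2 | h2
        · rw [h2, zero_smul]
        · exact absurd h2 hp0
      · rw [LinearMap.smul_apply, map_smul, w0b, smul_zero, smul_zero]
      · intro hcp x hx
        have hc : c ≠ 0 := by
          rintro rfl
          exact hcp (zero_smul _ _)
        have hs : (F ∙ (c • p0)) = F ∙ p0 :=
          Submodule.span_singleton_smul_eq (IsUnit.mk0 c hc) p0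
        rw [hs] at hx ⊢
        rw [LinearMap.smul_apply, LinearMap.ker_smul _ c hc]
        exact w0c x hx
    · have hp' : p ≠ 0 := by rintro rfl; exact hp (zero_mem _)
      obtain ⟨w, wa, wb, wc⟩ := step1 hN Z hZ hE p hp'
      have h1 := hsw p0 p hp0 hp
      have k1 := wc p0 h1.2
      have k2 := w0c p hp
      rw [sup_comm] at k2
      obtain ⟨c, hc, hcw⟩ := same_ker (w p0) (w0 p) (k1.trans k2.symm)
      refine ⟨(-c⁻¹) • w, fun x => ?_, ?_, fun _ => ?_, ?_, ?_, ?_⟩
      · rw [LinearMap.smul_apply, LinearMap.smul_apply, wa, smul_zero]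
      · intro c' hc'
        exact absurd (mem_span_singleton.2 ⟨c', hc'.symm⟩) hp
      · rw [LinearMap.smul_apply, hcw, smul_smul, neg_mul, inv_mul_cancel₀ hc, neg_smul, one_smul]
      · intro h; exact absurd h hp'
      · rw [LinearMap.smul_apply, wb, smul_zero]
      · intro _ x hx
        rw [LinearMap.smul_apply, LinearMap.ker_smul _ _ (neg_ne_zero.2 (inv_ne_zero hc))]
        exact wc x hx
  choose om omA omB omC omD omE omK using hex
  have hprop : ∀ p x : V, p ≠ 0 → x ∉ F ∙ p → ∃ c : F, c ≠ 0 ∧ om p x = c • om x p := by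
    intro p x hp hx
    obtain ⟨hx0, hpx⟩ := hsw p x hp hx
    have k1 := omK p hp x hx
    have k2 := omK x hx0 p hpx
    rw [sup_comm] at k2
    exact same_ker _ _ (k1.trans k2.symm)
  -- first part of (A)
  have A1 : ∀ p x : V, p ≠ 0 → x ∉ F ∙ p → p ∉ F ∙ p0 → x ∉ F ∙ p0 → w0 p x ≠ 0 →
      om p x = - om x p := by
    intro p x hp hx hp' hx' hw
    obtain ⟨c, hc, hcw⟩ := hprop p x hp hx
    have e1 : om p x p0 = w0 p x := by
      rw [skew _ (omA p), omC p hp', LinearMap.neg_apply, neg_neg]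
    have e2 : om x p p0 = - w0 p x := by
      rw [skew _ (omA x), omC x hx', LinearMap.neg_apply, neg_neg, skew _ w0a]
    have e3 : om p x p0 = c * om x p p0 := by rw [hcw]; rfl
    rw [e1, e2] at e3
    have hc1 : c = -1 := by
      have : (c + 1) * w0 p x = 0 := by linear_combination e3
      rcases mul_eq_zero.1 this with h | h
      · linear_combination h
      · exact absurd h hw
    rw [hcw, hc1]; module
  have A2 : ∀ p x : V, p ≠ 0 → x ∉ F ∙ p → p ∉ F ∙ p0 → x ∉ F ∙ p0 → om p x = - om x p := by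
    intro p x hp hx hp' hx'
    obtain ⟨c, hc, hcw⟩ := hprop p x hp hx
    by_cases hc1 : c = -1
    · rw [hcw, hc1]; module
    exfalso
    have hx0 := (hsw p x hp hx).1
    have n1 : w0 p ≠ 0 := hne p0 p _ hp0 hp' (w0c p hp')
    have n2 : w0 x ≠ 0 := hne p0 x _ hp0 hx' (w0c x hx')
    have n3 : om p x ≠ 0 := hne p x _ hp hx (omK p hp x hx)
    obtain ⟨r, r1, r2, r3⟩ := cover3 (w0 p) (w0 x) (om p x) n1 n2 n3 (-c) (neg_ne_zero.2 hc)
      (fun h => hc1 (by linear_combination -h))
    have hr : ∀ v : V, w0 v r ≠ 0 → r ∉ F ∙ v ∧ r ∉ F ∙ p0 := by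
      intro v hv
      constructor
      · intro h
        obtain ⟨d, rfl⟩ := mem_span_singleton.1 h
        rw [map_smul, w0a, smul_zero] at hv
        exact hv rfl
      · intro h
        obtain ⟨d, rfl⟩ := mem_span_singleton.1 h
        rw [map_smul, skew _ w0a, w0b, LinearMap.zero_apply, neg_zero, smul_zero] at hv
        exact hv rfl
    have q1 := A1 p r hp (hr p r1).1 hp' (hr p r1).2 r1
    have q2 := A1 x r hx0 (hr x r2).1 hx' (hr x r2).2 r2
    have s1 : om p x r = om r p x := by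
      rw [skew _ (omA p), q1, LinearMap.neg_apply, neg_neg]
    have s2 : om x p r = - om r p x := by
      rw [skew _ (omA x), q2, LinearMap.neg_apply, neg_neg, skew _ (omA r)]
    have s3 : om p x r = c * om x p r := by rw [hcw]; rfl
    rw [s1, s2] at s3
    rw [s1] at r3
    have : (c + 1) * om r p x = 0 := by linear_combination s3
    rcases mul_eq_zero.1 this with h | h
    · exact hc1 (by linear_combination h)
    · exact r3 h
  have A3 : ∀ p x : V, p ≠ 0 → x ∉ F ∙ p → p ∈ F ∙ p0 → om p x = - om x p := by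
    intro p x hp hx hp'
    obtain ⟨c, rfl⟩ := mem_span_singleton.1 hp'
    have hc : c ≠ 0 := by rintro rfl; exact hp (zero_smul _ _)
    have hs : (F ∙ (c • p0)) = F ∙ p0 := Submodule.span_singleton_smul_eq (IsUnit.mk0 c hc) p0
    rw [hs] at hx
    rw [omB _ c rfl, map_smul, omC x hx, LinearMap.smul_apply, smul_neg, neg_neg]
  have A : ∀ p x : V, om p x = - om x p := by
    intro p x
    by_cases hp : p = 0
    · rw [omD p hp, hp, map_zero, neg_zero, LinearMap.zero_apply]
    by_cases hx : x ∈ F ∙ p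
    · obtain ⟨c, rfl⟩ := mem_span_singleton.1 hx
      rw [map_smul, omE, smul_zero]
      by_cases hc : c = 0
      · rw [omD (c • p) (by rw [hc, zero_smul]), LinearMap.zero_apply, neg_zero]
      · have h1 := omE (c • p)
        rw [map_smul] at h1
        rcases smul_eq_zero.1 h1 with h | h
        · exact absurd h hc
        · rw [h, neg_zero]
    · by_cases hp' : p ∈ F ∙ p0
      · exact A3 p x hp hx hp'
      · by_cases hx' : x ∈ F ∙ p0
        · obtain ⟨hx0, hpx⟩ := hsw p x hp hx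
          rw [A3 x p hx0 hpx hx', neg_neg]
        · exact A2 p x hp hx hp' hx'
  refine ⟨{ toFun := om, map_add' := fun p p' => ?_, map_smul' := fun c p => ?_ },
    fun p x => omA p x, fun p x => ?_, fun p x hp => ?_⟩
  · refine LinearMap.ext fun x => ?_
    rw [LinearMap.add_apply, A, A p, A p', map_add, neg_add]
  · refine LinearMap.ext fun x => ?_
    rw [RingHom.id_apply, LinearMap.smul_apply, A, A p, map_smul, smul_neg]
  · change om p p x = 0
    rw [omE]; rfl
  · change om p x = 0 ↔ _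
    constructor
    · intro h
      by_contra hx
      exact hne p x _ hp hx (omK p hp x hx) h
    · intro hx
      obtain ⟨c, rfl⟩ := mem_span_singleton.1 hx
      rw [map_smul, omE, smul_zero]

end GL4
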